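import Mathlib

/-!
# The discrepancy of the multiples of a badly approximable number, with a uniform constant
-/

set_option autoImplicit false

namespace Q271.KV

/-- distance to the nearest integer -/
noncomputable def nrm (t : ℝ) : ℝ := |t - round t|

/-- the number of `n < L` with fractional part of `n β + θ` less than `a` -/
noncomputable def cnt (β θ a : ℝ) (L : ℕ) : ℕ :=
  ((Finset.range L).filter (fun n : ℕ => Int.fract (n * β + θ) < a)).card

lemma cnt_add (β θ a : ℝ) (L M : ℕ) :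
    cnt β θ a (L + M) = cnt β θ a L + cnt β (θ + L * β) a M := by
  unfold cnt
  rw [Finset.range_add_eq_union, Finset.filter_union, Finset.card_union_of_disjoint]
  · congr 1
    rw [Finset.filter_map, Finset.card_map]
    congr 1
    apply Finset.filter_congr
    intro n _
    simp only [Function.comp, addLeftEmbedding_apply]
    have : ((L + n : ℕ) : ℝ) * β + θ = n * β + (θ + L * β) := by push_cast; ring
    rw [this]
  · apply Finset.disjoint_filter_filter
    exact Finset.disjoint_range_addLeftEmbedding L _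

lemma cnt_compl (β θ a : ℝ) (ha0 : 0 ≤ a) (ha1 : a ≤ 1) (L : ℕ) :
    cnt β θ a L + cnt β (θ - a) (1 - a) L = L := by
  unfold cnt
  have h : ∀ x : ℝ, Int.fract (x - a) < 1 - a ↔ ¬ Int.fract x < a := by
    intro x
    rw [not_lt]
    rcases eq_or_lt_of_le ha1 with rfl | ha1'
    · constructor
      · intro h
        have := Int.fract_nonneg (x - 1)
        linarith
      · intro h
        have := Int.fract_lt_one x
        linarith
    constructor
    · intro h
      have h1 : x - a = ⌊x - a⌋ + Int.fract (x - a) := (Int.floor_add_fract _).symm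
      have h0 := Int.fract_nonneg (x - a)
      have h2 : ⌊x⌋ = ⌊x - a⌋ := by
        rw [Int.floor_eq_iff]
        constructor <;> linarith
      have h3 : Int.fract x = x - ⌊x - a⌋ := by rw [Int.fract, h2]
      rw [h3]
      linarith
    · intro h
      have h1 : x = ⌊x⌋ + Int.fract x := (Int.floor_add_fract _).symm
      have h0 := Int.fract_lt_one x
      have h2 : ⌊x - a⌋ = ⌊x⌋ := by
        rw [Int.floor_eq_iff]
        constructor <;> linarith
      have h3 : Int.fract (x - a) = x - a - ⌊x⌋ := by rw [Int.fract, h2]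
      rw [h3]
      linarith
  have h2 : ((Finset.range L).filter (fun n : ℕ => Int.fract (n * β + (θ - a)) < 1 - a)) =
      (Finset.range L).filter (fun n : ℕ => ¬ Int.fract (n * β + θ) < a) := by
    apply Finset.filter_congr
    intro n _
    rw [← h]
    have : (n:ℝ) * β + (θ - a) = n * β + θ - a := by ring
    rw [this]
  rw [h2, Finset.card_filter_add_card_filter_not, Finset.card_range]

lemma cnt_block_le (β θ a : ℝ) (ha0 : 0 ≤ a) (q : ℕ) (hq : 0 < q) (p : ℤ)
    (hpq : IsCoprime p (q : ℤ)) (hβ : |β - p / q| ≤ 1 / (q:ℝ) ^ 2) :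
    (cnt β θ a q : ℝ) ≤ a * q + 3 := by
  classical
  have hq' : (0:ℝ) < q := by exact_mod_cast hq
  set u : ℝ := -(q * θ) - 1 with hu
  set w : ℝ := a * q + 2 with hw
  have hinj : cnt β θ a q ≤ (Finset.Ico ⌈u⌉ ⌈u + w⌉).card := by
    unfold cnt
    apply Finset.card_le_card_of_injOn (fun n : ℕ => (n:ℤ) * p - ⌊n * β + θ⌋ * q)
    · intro n hn
      rw [Finset.coe_filter, Set.mem_setOf_eq, Finset.mem_range] at hn
      obtain ⟨hnq, hfr⟩ := hn
      have h1 : (n:ℝ) * β + θ = ⌊n * β + θ⌋ + Int.fract (n * β + θ) :=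
        (Int.floor_add_fract _).symm
      have h0 := Int.fract_nonneg (n * β + θ)
      have hnq' : (n:ℝ) ≤ q := by exact_mod_cast hnq.le
      have herr : |(n:ℝ) * (q * β - p)| ≤ 1 := by
        have e : (q:ℝ) * β - p = q * (β - p / q) := by field_simp
        rw [e, abs_mul, abs_mul, abs_of_nonneg (by positivity : (0:ℝ) ≤ n), abs_of_pos hq']
        calc (n:ℝ) * (q * |β - p / q|) ≤ q * (q * (1 / (q:ℝ) ^ 2)) := by gcongr
          _ = 1 := by field_simp
      rw [abs_le] at herr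
      have e1 : (((n:ℤ) * p - ⌊n * β + θ⌋ * q : ℤ) : ℝ) =
          q * Int.fract (n * β + θ) - q * θ - n * (q * β - p) := by
        push_cast
        have : ((⌊(n:ℝ) * β + θ⌋ : ℤ) : ℝ) = n * β + θ - Int.fract (n * β + θ) := by linarith
        rw [this]
        ring
      rw [Finset.coe_Ico, Set.mem_Ico]
      constructor
      · rw [Int.ceil_le, e1, hu]
        have : 0 ≤ (q:ℝ) * Int.fract (n * β + θ) := by positivity
        linarith [herr.2]
      · rw [Int.lt_ceil, e1, hu, hw]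
        have : (q:ℝ) * Int.fract (n * β + θ) < q * a := by
          apply mul_lt_mul_of_pos_left hfr hq'
        linarith [herr.1]
    · intro n hn n' hn' h
      rw [Finset.coe_filter, Set.mem_setOf_eq, Finset.mem_range] at hn hn'
      simp only at h
      have h1 : (q:ℤ) ∣ ((n:ℤ) - n') * p := by
        refine ⟨⌊(n:ℝ) * β + θ⌋ - ⌊(n':ℝ) * β + θ⌋, ?_⟩
        linear_combination h
      have h2 : (q:ℤ) ∣ (n:ℤ) - n' := hpq.symm.dvd_of_dvd_mul_right h1
      have h3 : (n:ℤ) - n' = 0 := by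
        apply Int.eq_zero_of_abs_lt_dvd h2
        rw [abs_lt]
        constructor <;> omega
      omega
  have hcard : (((Finset.Ico ⌈u⌉ ⌈u + w⌉).card : ℕ) : ℝ) ≤ w + 1 := by
    rw [Int.card_Ico]
    have hw0 : 0 ≤ w := by rw [hw]; positivity
    have h1 : ⌈u⌉ ≤ ⌈u + w⌉ := Int.ceil_le_ceil (by linarith)
    have h2 : (((⌈u + w⌉ - ⌈u⌉).toNat : ℕ) : ℝ) = ((⌈u + w⌉ - ⌈u⌉ : ℤ) : ℝ) := by
      have : (((⌈u + w⌉ - ⌈u⌉).toNat : ℕ) : ℤ) = ⌈u + w⌉ - ⌈u⌉ := Int.toNat_of_nonneg (by omega)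
      exact_mod_cast this
    rw [h2]
    push_cast
    have h3 := Int.ceil_lt_add_one (u + w)
    have h4 := Int.le_ceil u
    linarith
  calc (cnt β θ a q : ℝ) ≤ (((Finset.Ico ⌈u⌉ ⌈u + w⌉).card : ℕ) : ℝ) := by exact_mod_cast hinj
    _ ≤ w + 1 := hcard
    _ = a * q + 3 := by rw [hw]; ring

lemma cnt_block (β θ a : ℝ) (ha0 : 0 ≤ a) (ha1 : a ≤ 1) (q : ℕ) (hq : 0 < q) (p : ℤ)
    (hpq : IsCoprime p (q : ℤ)) (hβ : |β - p / q| ≤ 1 / (q:ℝ) ^ 2) :
    |(cnt β θ a q : ℝ) - a * q| ≤ 3 := by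
  have h1 := cnt_block_le β θ a ha0 q hq p hpq hβ
  have h2 := cnt_block_le β (θ - a) (1 - a) (by linarith) q hq p hpq hβ
  have h3 : (cnt β θ a q : ℝ) + cnt β (θ - a) (1 - a) q = q := by
    exact_mod_cast cnt_compl β θ a ha0 ha1 q
  rw [abs_le]
  constructor <;> linarith

/-- several blocks -/
lemma cnt_blocks (β a : ℝ) (ha0 : 0 ≤ a) (ha1 : a ≤ 1) (q : ℕ) (hq : 0 < q) (p : ℤ)
    (hpq : IsCoprime p (q : ℤ)) (hβ : |β - p / q| ≤ 1 / (q:ℝ) ^ 2) (t : ℕ) :
    ∀ θ : ℝ, |(cnt β θ a (t * q) : ℝ) - a * ((t * q : ℕ) : ℝ)| ≤ 3 * t := by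
  induction t with
  | zero => intro θ; simp [cnt]
  | succ t ih =>
    intro θ
    have e : (t + 1) * q = t * q + q := by ring
    rw [e, cnt_add]
    have h1 := ih θ
    have h2 := cnt_block β (θ + ((t * q : ℕ) : ℝ) * β) a ha0 ha1 q hq p hpq hβ
    rw [abs_le] at h1 h2 ⊢
    push_cast at *
    constructor <;> linarith [h1.1, h1.2, h2.1, h2.2]

/-- Dirichlet for a badly approximable number. -/
lemma dirichlet (β c : ℝ) (hc : 0 < c) (hβ : ∀ q : ℕ, 1 ≤ q → c ≤ q * nrm (q * β)) (L : ℕ)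
    (hL : 1 ≤ L) : ∃ (q : ℕ) (p : ℤ), 0 < q ∧ q ≤ L ∧ c * L ≤ q ∧ IsCoprime p (q : ℤ) ∧
      |β - p / q| ≤ 1 / (q:ℝ) ^ 2 := by
  obtain ⟨p0, q0, hq0, hq0L, happ⟩ := Real.exists_int_int_abs_mul_sub_le β (by omega : 0 < L)
  have hLr : (1:ℝ) ≤ L := by exact_mod_cast hL
  set g : ℤ := (Int.gcd q0 p0 : ℤ) with hg
  have hgpos : 0 < g := by
    rw [hg]
    exact_mod_cast Int.gcd_pos_of_ne_zero_left _ hq0.ne'
  obtain ⟨q, hq⟩ : g ∣ q0 := Int.gcd_dvd_left ..
  obtain ⟨p, hp⟩ : g ∣ p0 := Int.gcd_dvd_right ..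
  have hqpos : 0 < q := by
    rw [hq] at hq0
    exact (mul_pos_iff_of_pos_left hgpos).1 hq0
  have hcop : IsCoprime q p := by
    rw [Int.isCoprime_iff_gcd_eq_one]
    have h1 := Int.gcd_mul_left g q p
    rw [← hq, ← hp] at h1
    have h2 : Int.gcd q0 p0 = g.natAbs := by rw [hg]; simp
    rw [h2] at h1
    have h3 : 0 < g.natAbs := by omega
    exact Nat.eq_of_mul_eq_mul_left h3 (by rw [← h1, mul_one])
  have hqL : q ≤ L := by
    have : q ≤ q0 := by rw [hq]; nlinarith
    omega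
  have hgr : (1:ℝ) ≤ g := by exact_mod_cast hgpos
  have happ' : |(q:ℝ) * β - p| ≤ 1 / (L + 1) := by
    have e : (q0:ℝ) * β - p0 = g * (q * β - p) := by rw [hq, hp]; push_cast; ring
    rw [e, abs_mul, abs_of_pos (by linarith : (0:ℝ) < g)] at happ
    refine le_trans ?_ happ
    nlinarith [abs_nonneg ((q:ℝ) * β - p)]
  obtain ⟨n, rfl⟩ : ∃ n : ℕ, (n : ℤ) = q := ⟨q.toNat, Int.toNat_of_nonneg hqpos.le⟩
  have hn : 0 < n := by exact_mod_cast hqpos
  have hnr : (0:ℝ) < n := by exact_mod_cast hn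
  have hnL : n ≤ L := by exact_mod_cast hqL
  have hnLr : (n:ℝ) ≤ L := by exact_mod_cast hnL
  push_cast at happ'
  refine ⟨n, p, hn, hnL, ?_, hcop.symm, ?_⟩
  · have h1 := hβ n hn
    have h2 : nrm (n * β) ≤ 1 / (L + 1) := by
      refine le_trans ?_ happ'
      unfold nrm
      exact round_le _ _
    have h3 : c ≤ n * (1 / (L + 1)) := h1.trans (by gcongr)
    rw [mul_one_div, le_div_iff₀ (by positivity)] at h3
    nlinarith
  · have e : β - p / n = (n * β - p) / n := by field_simp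
    rw [e, abs_div, abs_of_pos hnr, div_le_div_iff₀ hnr (by positivity)]
    have h4 : |(n:ℝ) * β - p| * n ≤ 1 := by
      calc |(n:ℝ) * β - p| * n ≤ 1 / (L + 1) * L := by gcongr
        _ ≤ 1 := by
          rw [div_mul_eq_mul_div, div_le_one (by positivity)]
          linarith
    nlinarith

/-- **Discrepancy of a badly approximable number.** -/
theorem cnt_bound (β c : ℝ) (hc : 0 < c) (hc1 : c < 1)
    (hβ : ∀ q : ℕ, 1 ≤ q → c ≤ q * nrm (q * β)) (a : ℝ) (ha0 : 0 ≤ a) (ha1 : a ≤ 1) (L : ℕ) :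
    ∀ θ : ℝ, |(cnt β θ a L : ℝ) - a * L| ≤ 3 / c * (1 + Real.log L / c) := by
  induction L using Nat.strong_induction_on with
  | _ L ih =>
    intro θ
    rcases Nat.eq_zero_or_pos L with rfl | hL
    · simp only [cnt, Finset.range_zero, Finset.filter_empty, Finset.card_empty, Nat.cast_zero,
        mul_zero, sub_zero, abs_zero, Real.log_zero, zero_div, add_zero, mul_one]
      positivity
    obtain ⟨q, p, hq, hqL, hcq, hcop, happ⟩ := dirichlet β c hc hβ L hL
    have hLr : (1:ℝ) ≤ L := by exact_mod_cast hL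
    have hqr : (0:ℝ) < q := by exact_mod_cast hq
    set t := L / q with ht
    set L' := L % q with hL'
    have hdiv : t * q + L' = L := Nat.div_add_mod' L q
    have hL'q : L' < q := Nat.mod_lt _ hq
    have htc : (t:ℝ) ≤ 1 / c := by
      rw [le_div_iff₀ hc]
      have h1 : (t:ℝ) * q ≤ L := by exact_mod_cast (by omega : t * q ≤ L)
      have h2 : (t:ℝ) * c * L ≤ 1 * L := by
        calc (t:ℝ) * c * L = t * (c * L) := by ring
          _ ≤ t * q := by gcongr
          _ ≤ 1 * L := by linarith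
      exact le_of_mul_le_mul_right h2 (by linarith)
    have h1 := cnt_blocks β a ha0 ha1 q hq p hcop happ t θ
    have h2 := ih L' (by omega) (θ + ((t * q : ℕ) : ℝ) * β)
    have hlog0 : 0 ≤ Real.log L := Real.log_nonneg hLr
    have hmain : |(cnt β θ a L : ℝ) - a * L| ≤ 3 * t +
        |(cnt β (θ + ((t * q : ℕ) : ℝ) * β) a L' : ℝ) - a * L'| := by
      have e1 : cnt β θ a L = cnt β θ a (t * q) + cnt β (θ + ((t * q : ℕ) : ℝ) * β) a L' := by
        rw [← cnt_add, hdiv]
      have e2 : (L:ℝ) = ((t * q : ℕ) : ℝ) + L' := by exact_mod_cast hdiv.symm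
      rw [e1, e2]
      have e3 : ((cnt β θ a (t * q) + cnt β (θ + ((t * q : ℕ) : ℝ) * β) a L' : ℕ) : ℝ) -
          a * (((t * q : ℕ) : ℝ) + L') = ((cnt β θ a (t * q) : ℝ) - a * ((t * q : ℕ) : ℝ)) +
          ((cnt β (θ + ((t * q : ℕ) : ℝ) * β) a L' : ℝ) - a * L') := by
        push_cast; ring
      rw [e3]
      refine (abs_add_le _ _).trans ?_
      linarith
    refine hmain.trans ?_
    have h3t : 3 * (t:ℝ) ≤ 3 / c := by
      calc 3 * (t:ℝ) ≤ 3 * (1 / c) := by gcongr
        _ = 3 / c := by ring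
    rcases Nat.eq_zero_or_pos L' with h0 | hpos
    · rw [h0]
      simp only [cnt, Finset.range_zero, Finset.filter_empty, Finset.card_empty, Nat.cast_zero,
        mul_zero, sub_zero, abs_zero, add_zero]
      have : 0 ≤ 3 / c * (Real.log L / c) := by positivity
      linarith
    · have ht1 : 1 ≤ t := (Nat.one_le_div_iff hq).2 hqL
      have hL'r : (0:ℝ) < L' := by exact_mod_cast hpos
      have hle : (L':ℝ) ≤ (1 - c) * L := by
        have h5 : q + L' ≤ L := by nlinarith
        have h6 : (q:ℝ) + L' ≤ L := by exact_mod_cast h5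
        linarith
      have hlog : Real.log L' ≤ Real.log L - c := by
        calc Real.log L' ≤ Real.log ((1 - c) * L) := Real.log_le_log hL'r hle
          _ = Real.log (1 - c) + Real.log L := Real.log_mul (by linarith) (by linarith)
          _ ≤ Real.log L - c := by
            have := Real.log_le_sub_one_of_pos (by linarith : 0 < 1 - c)
            linarith
      calc 3 * (t:ℝ) + |(cnt β (θ + ((t * q : ℕ) : ℝ) * β) a L' : ℝ) - a * L'|
          ≤ 3 / c + 3 / c * (1 + Real.log L' / c) := add_le_add h3t h2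
        _ ≤ 3 / c + 3 / c * (1 + (Real.log L - c) / c) := by gcongr
        _ = 3 / c * (1 + Real.log L / c) := by field_simp; ring

end Q271.KV
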