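import Mathlib
import Pool.Agent.Q271.KV.Disc

/-!
# The hybrid of a Kronecker sequence and the van der Corput sequence
-/

set_option autoImplicit false

namespace Q271.KV

/-- the van der Corput sequence in base `p` -/
noncomputable def phi (p n : ℕ) : ℝ := ∑' i : ℕ, ((n / p ^ i % p : ℕ) : ℝ) / (p:ℝ) ^ (i + 1)

lemma phi_summable (p n : ℕ) (hp : 2 ≤ p) :
    Summable (fun i : ℕ => ((n / p ^ i % p : ℕ) : ℝ) / (p:ℝ) ^ (i + 1)) := by
  apply summable_of_ne_finset_zero (s := Finset.range n)
  intro i hi
  rw [Finset.mem_range, not_lt] at hi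
  have h1 : n < p ^ i := by
    calc n < 2 ^ n := Nat.lt_two_pow_self
      _ ≤ p ^ n := Nat.pow_le_pow_left hp n
      _ ≤ p ^ i := Nat.pow_le_pow_right (by omega) hi
  rw [Nat.div_eq_of_lt h1]
  simp

lemma phi_rec (p n : ℕ) (hp : 2 ≤ p) : phi p n = (((n % p : ℕ) : ℝ) + phi p (n / p)) / p := by
  have hp0 : (p:ℝ) ≠ 0 := by positivity
  unfold phi
  rw [(phi_summable p n hp).tsum_eq_zero_add, add_div, ← tsum_div_const]
  congr 1
  · simp
  · apply tsum_congr
    intro i
    rw [pow_succ' p i, ← Nat.div_div_eq_div_mul, div_div]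
    congr 1

lemma phi_mem (p : ℕ) (hp : 2 ≤ p) (n : ℕ) : 0 ≤ phi p n ∧ phi p n < 1 := by
  have hp0 : (0:ℝ) < p := by exact_mod_cast (by omega : 0 < p)
  induction n using Nat.strong_induction_on with
  | _ n ih =>
    rcases Nat.eq_zero_or_pos n with rfl | hn
    · have : phi p 0 = 0 := by
        unfold phi
        simp
      rw [this]
      norm_num
    · have h1 : n / p < n := Nat.div_lt_self hn (by omega)
      obtain ⟨h2, h3⟩ := ih _ h1
      rw [phi_rec p n hp]
      have h4 : ((n % p : ℕ) : ℝ) + 1 ≤ p := by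
        exact_mod_cast Nat.mod_lt n (by omega : 0 < p)
      constructor
      · positivity
      · rw [div_lt_one hp0]
        linarith

lemma phi_add (p c n : ℕ) (hp : 2 ≤ p) (hc : c < p) :
    phi p (c + p * n) = ((c:ℝ) + phi p n) / p := by
  rw [phi_rec p _ hp]
  have h1 : (c + p * n) % p = c := by rw [Nat.add_mul_mod_self_left, Nat.mod_eq_of_lt hc]
  have h2 : (c + p * n) / p = n := by
    rw [Nat.add_mul_div_left _ _ (by omega), Nat.div_eq_of_lt hc, zero_add]
  rw [h1, h2]

/-- the number of `n < N` with `{n β + θ} < a` and `φ(n) < b` -/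
noncomputable def cnt2 (p : ℕ) (β θ a b : ℝ) (N : ℕ) : ℕ :=
  ((Finset.range N).filter (fun n : ℕ => Int.fract (n * β + θ) < a ∧ phi p n < b)).card

/-- the number of `n'` with `c + p n' < N` -/
def Nc (p N c : ℕ) : ℕ := (N + p - 1 - c) / p

lemma lt_Nc (p N c n : ℕ) (hc : c < p) : n < Nc p N c ↔ c + p * n < N := by
  unfold Nc
  rw [Nat.lt_iff_add_one_le, Nat.le_div_iff_mul_le (by omega)]
  constructor
  · intro h
    have : (n + 1) * p = p * n + p := by ring
    omega
  · intro h
    have : (n + 1) * p = p * n + p := by ring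
    omega

lemma Nc_near (p N c : ℕ) (hp : 2 ≤ p) (hc : c < p) : |(Nc p N c : ℝ) - N / p| ≤ 1 := by
  have hp0 : (0:ℝ) < p := by exact_mod_cast (by omega : 0 < p)
  have h1 : p * Nc p N c ≤ N + p - 1 - c := Nat.mul_div_le _ _
  have h2 : N + p - 1 - c < p * Nc p N c + p := by
    have := Nat.lt_mul_div_succ (N + p - 1 - c) (by omega : 0 < p)
    unfold Nc
    nlinarith
  have h3 : (p:ℝ) * Nc p N c ≤ N + p := by exact_mod_cast (by omega : p * Nc p N c ≤ N + p)
  have h4 : (N:ℝ) ≤ p * Nc p N c + p := by exact_mod_cast (by omega : N ≤ p * Nc p N c + p)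
  rw [abs_le]
  constructor
  · have : (N:ℝ) / p ≤ Nc p N c + 1 := by
      rw [div_le_iff₀ hp0]
      linarith
    linarith
  · have : (Nc p N c : ℝ) - 1 ≤ N / p := by
      rw [le_div_iff₀ hp0]
      linarith
    linarith

lemma cnt2_split (p : ℕ) (hp : 2 ≤ p) (β θ a b : ℝ) (N : ℕ) :
    cnt2 p β θ a b N = ∑ c ∈ Finset.range p, ((Finset.range (Nc p N c)).filter
      (fun n : ℕ => Int.fract (n * (p * β) + (c * β + θ)) < a ∧
        (c:ℝ) + phi p n < p * b)).card := by
  classical
  have hp0 : (0:ℝ) < p := by exact_mod_cast (by omega : 0 < p)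
  unfold cnt2
  rw [Finset.card_eq_sum_card_fiberwise (f := fun n => n % p) (t := Finset.range p)
    (fun n _ => Finset.mem_coe.2 (Finset.mem_range.2 (Nat.mod_lt _ (by omega))))]
  apply Finset.sum_congr rfl
  intro c hc
  rw [Finset.mem_range] at hc
  symm
  apply Finset.card_bij (fun n _ => c + p * n)
  · intro n hn
    rw [Finset.mem_filter, Finset.mem_range] at hn
    rw [Finset.mem_filter, Finset.mem_filter, Finset.mem_range]
    refine ⟨⟨(lt_Nc p N c n hc).1 hn.1, ?_, ?_⟩, ?_⟩
    · have e : ((c + p * n : ℕ) : ℝ) * β + θ = n * (p * β) + (c * β + θ) := by push_cast; ring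
      rw [e]
      exact hn.2.1
    · rw [phi_add p c n hp hc, div_lt_iff₀ hp0, mul_comm b]
      exact hn.2.2
    · rw [Nat.add_mul_mod_self_left, Nat.mod_eq_of_lt hc]
  · intro n _ n' _ h
    have : p * n = p * n' := by omega
    exact Nat.eq_of_mul_eq_mul_left (by omega) this
  · intro m hm
    rw [Finset.mem_filter, Finset.mem_filter, Finset.mem_range] at hm
    obtain ⟨⟨hmN, h1, h2⟩, h3⟩ := hm
    have e0 : c + p * (m / p) = m := by
      rw [← h3]; exact Nat.mod_add_div m p
    refine ⟨m / p, ?_, e0⟩
    rw [Finset.mem_filter, Finset.mem_range, lt_Nc p N c _ hc, e0]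
    refine ⟨hmN, ?_, ?_⟩
    · have e : ((m / p : ℕ) : ℝ) * (p * β) + (c * β + θ) = m * β + θ := by
        have : (m:ℝ) = c + p * (m / p : ℕ) := by exact_mod_cast e0.symm
        rw [this]; push_cast; ring
      rw [e]
      exact h1
    · have h5 : phi p m = ((c:ℝ) + phi p (m / p)) / p := by
        conv_lhs => rw [← e0]
        exact phi_add p c _ hp hc
      rw [h5, div_lt_iff₀ hp0, mul_comm b] at h2
      exact h2

/-- the three kinds of residues -/
lemma cnt2_rec (p : ℕ) (hp : 2 ≤ p) (β θ a b : ℝ) (hb0 : 0 ≤ b) (hb1 : b < 1) (N : ℕ) :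
    (cnt2 p β θ a b N : ℝ) = ∑ c ∈ Finset.range ⌊p * b⌋₊,
      (cnt (p * β) (c * β + θ) a (Nc p N c) : ℝ) +
      cnt2 p (p * β) (⌊p * b⌋₊ * β + θ) a (p * b - ⌊p * b⌋₊) (Nc p N ⌊p * b⌋₊) := by
  have hp0 : (0:ℝ) < p := by exact_mod_cast (by omega : 0 < p)
  have hpb : 0 ≤ (p:ℝ) * b := by positivity
  set j := ⌊(p:ℝ) * b⌋₊ with hj
  have hj1 : (j:ℝ) ≤ p * b := Nat.floor_le hpb
  have hj2 : (p:ℝ) * b < j + 1 := Nat.lt_floor_add_one _
  have hjp : j < p := by
    have : (j:ℝ) < p := by nlinarith
    exact_mod_cast this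
  rw [cnt2_split p hp]
  have hsplit : Finset.range p = Finset.range j ∪ {j} ∪ Finset.Ico (j + 1) p := by
    ext x
    simp only [Finset.mem_union, Finset.mem_range, Finset.mem_singleton, Finset.mem_Ico]
    omega
  rw [hsplit, Finset.sum_union, Finset.sum_union, Finset.sum_singleton]
  · have h1 : ∑ c ∈ Finset.Ico (j + 1) p, ((Finset.range (Nc p N c)).filter
      (fun n : ℕ => Int.fract (n * (p * β) + (c * β + θ)) < a ∧
        (c:ℝ) + phi p n < p * b)).card = 0 := by
      apply Finset.sum_eq_zero
      intro c hc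
      rw [Finset.mem_Ico] at hc
      rw [Finset.card_eq_zero, Finset.filter_eq_empty_iff]
      intro n _ h
      have h2 := (phi_mem p hp n).1
      have h3 : (j:ℝ) + 1 ≤ c := by exact_mod_cast hc.1
      linarith [h.2]
    rw [h1, add_zero, Nat.cast_add, Nat.cast_sum]
    congr 1
    · apply Finset.sum_congr rfl
      intro c hc
      rw [Finset.mem_range] at hc
      unfold cnt
      congr 2
      apply Finset.filter_congr
      intro n _
      have h2 := (phi_mem p hp n).2
      have h3 : (c:ℝ) + 1 ≤ j := by exact_mod_cast hc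
      constructor
      · exact fun h => h.1
      · exact fun h => ⟨h, by linarith⟩
    · unfold cnt2
      congr 2
      apply Finset.filter_congr
      intro n _
      constructor
      · exact fun h => ⟨h.1, by linarith [h.2]⟩
      · exact fun h => ⟨h.1, by linarith [h.2]⟩
  · rw [Finset.disjoint_singleton_right, Finset.mem_range]
    omega
  · rw [Finset.disjoint_left]
    intro x hx hx'
    simp only [Finset.mem_union, Finset.mem_range, Finset.mem_singleton, Finset.mem_Ico] at hx hx'
    omega

/-- **The count in two dimensions.** -/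
theorem cnt2_bound (p : ℕ) (hp : 2 ≤ p) (c : ℝ) (hc : 0 < c) (hc1 : c < 1) (a : ℝ)
    (ha0 : 0 ≤ a) (ha1 : a ≤ 1) (N : ℕ) :
    ∀ (β θ b : ℝ), (∀ k q : ℕ, 1 ≤ q → c ≤ q * nrm (q * (p ^ k * β))) → 0 ≤ b → b ≤ 1 →
      |(cnt2 p β θ a b N : ℝ) - a * b * N| ≤
        (3 * p / c ^ 2 + p + 1) * (1 + Real.log N) * (1 + 4 * Real.log N) := by
  have hp0 : (0:ℝ) < p := by exact_mod_cast (by omega : 0 < p)
  induction N using Nat.strong_induction_on with
  | _ N ih =>
    intro β θ b hβ hb0 hb1
    set A : ℝ := 3 * p / c ^ 2 + p + 1 with hA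
    have hApos : 0 < A := by positivity
    -- the case `b = 1`
    have hAc : 3 / c ^ 2 ≤ A := by
      rw [hA]
      have : 3 / c ^ 2 ≤ 3 * p / c ^ 2 := by
        apply div_le_div_of_nonneg_right _ (by positivity)
        have : (1:ℝ) ≤ p := by exact_mod_cast (by omega : 1 ≤ p)
        linarith
      linarith
    -- one dimensional bound
    have one : ∀ (β : ℝ), (∀ q : ℕ, 1 ≤ q → c ≤ q * nrm (q * β)) → ∀ (L : ℕ) (θ : ℝ), L ≤ N →
        |(cnt β θ a L : ℝ) - a * L| ≤ 3 / c ^ 2 * (1 + Real.log N) := by
      intro β hβ L θ hLN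
      refine (cnt_bound β c hc hc1 hβ a ha0 ha1 L θ).trans ?_
      rcases Nat.eq_zero_or_pos L with rfl | hL
      · simp only [Nat.cast_zero, Real.log_zero, zero_div, add_zero, mul_one]
        have h1 : 0 ≤ Real.log N := Real.log_natCast_nonneg N
        have h2 : 3 / c ≤ 3 / c ^ 2 := by
          apply div_le_div_of_nonneg_left (by norm_num) (by positivity)
          nlinarith
        have h3 : 0 ≤ 3 / c ^ 2 * Real.log N := by positivity
        linarith
      · have hlog : Real.log L ≤ Real.log N :=
          Real.log_le_log (by exact_mod_cast hL) (by exact_mod_cast hLN)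
        have h0 : 0 ≤ Real.log N := Real.log_natCast_nonneg N
        calc 3 / c * (1 + Real.log L / c) ≤ 3 / c * (1 / c + Real.log N / c) := by
              gcongr
              rw [le_div_iff₀ hc]; linarith
          _ = 3 / c ^ 2 * (1 + Real.log N) := by field_simp
    rcases eq_or_lt_of_le hb1 with rfl | hb1'
    · -- `b = 1`
      have e : cnt2 p β θ a 1 N = cnt β θ a N := by
        unfold cnt2 cnt
        congr 1
        apply Finset.filter_congr
        intro n _
        exact ⟨fun h => h.1, fun h => ⟨h, (phi_mem p hp n).2⟩⟩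
      rw [e, mul_one]
      have h1 := one β (fun q hq => by simpa using hβ 0 q hq) N θ le_rfl
      have h0 : 0 ≤ Real.log N := Real.log_natCast_nonneg N
      refine h1.trans ?_
      calc 3 / c ^ 2 * (1 + Real.log N) ≤ A * (1 + Real.log N) := by gcongr
        _ ≤ A * (1 + Real.log N) * (1 + 4 * Real.log N) := by
          apply le_mul_of_one_le_right (by positivity)
          linarith
    rcases Nat.lt_or_ge N 2 with hN | hN
    · -- `N ≤ 1`
      have h0 : (cnt2 p β θ a b N : ℝ) ≤ N := by
        have : cnt2 p β θ a b N ≤ N := by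
          unfold cnt2
          exact (Finset.card_filter_le _ _).trans (by simp)
        exact_mod_cast this
      have h1 : (0:ℝ) ≤ cnt2 p β θ a b N := by positivity
      have hN1 : (N:ℝ) ≤ 1 := by exact_mod_cast (by omega : N ≤ 1)
      have hab : a * b ≤ 1 := by nlinarith
      have hab0 : 0 ≤ a * b := by positivity
      have hlog : Real.log N = 0 := by
        interval_cases N <;> simp
      rw [hlog]
      have hA1 : 1 ≤ A := by
        rw [hA]
        have : 0 < 3 * (p:ℝ) / c ^ 2 := by positivity
        linarith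
      have h2 : a * b * N ≤ 1 := by nlinarith
      have h3 : 0 ≤ a * b * N := by positivity
      rw [abs_le]
      constructor <;> nlinarith
    · -- the recursion
      set j := ⌊(p:ℝ) * b⌋₊ with hj
      have hpb : 0 ≤ (p:ℝ) * b := by positivity
      have hj1 : (j:ℝ) ≤ p * b := Nat.floor_le hpb
      have hj2 : (p:ℝ) * b < j + 1 := Nat.lt_floor_add_one _
      have hjp : j < p := by
        have : (j:ℝ) < p := by nlinarith
        exact_mod_cast this
      have hNr : (2:ℝ) ≤ N := by exact_mod_cast hN
      set N' := Nc p N j with hN'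
      have hN'le : 4 * N' ≤ 3 * N := by
        have h1 : p * N' ≤ N + p - 1 - j := Nat.mul_div_le _ _
        have h2 : p * N' ≤ N + p - 1 := by omega
        -- `N' ≤ 1 + (N - 1) / p`
        have h3 : 2 * (N' - 1) ≤ p * (N' - 1) := Nat.mul_le_mul_right _ hp
        rcases Nat.eq_zero_or_pos N' with h0 | h0
        · omega
        · have h4 : p * (N' - 1) = p * N' - p := by
            rw [Nat.mul_sub, mul_one]
          omega
      have hN'lt : N' < N := by omega
      have hβ' : ∀ k q : ℕ, 1 ≤ q → c ≤ q * nrm (q * (p ^ k * (p * β))) := by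
        intro k q hq
        have := hβ (k + 1) q hq
        have e : (p:ℝ) ^ (k + 1) * β = p ^ k * (p * β) := by ring
        rwa [e] at this
      have hT := ih N' hN'lt (p * β) (j * β + θ) (p * b - j) hβ' (by linarith) (by linarith)
      have hrec := cnt2_rec p hp β θ a b hb0 hb1' N
      rw [← hj, ← hN'] at hrec
      have h0 : 0 ≤ Real.log N := Real.log_natCast_nonneg N
      have hNcle : ∀ c : ℕ, c < p → Nc p N c ≤ N := by
        intro c hc
        unfold Nc
        rcases Nat.eq_zero_or_pos (N + p - 1 - c) with h | h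
        · rw [h]; simp
        · apply Nat.div_le_of_le_mul
          have h5 : (0:ℤ) ≤ ((p:ℤ) - 1) * ((N:ℤ) - 1) :=
            mul_nonneg (by omega) (by omega)
          have h6 : (N:ℤ) + p ≤ p * N + 1 := by linarith
          have h7 : N + p ≤ p * N + 1 := by exact_mod_cast h6
          omega
      -- the sum
      have hsum : |∑ c ∈ Finset.range j, (cnt (p * β) (c * β + θ) a (Nc p N c) : ℝ) -
          j * (a * (N / p))| ≤ j * (3 / c ^ 2 * (1 + Real.log N) + 1) := by
        have e : (j:ℝ) * (a * (N / p)) = ∑ _c ∈ Finset.range j, a * ((N:ℝ) / p) := by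
          rw [Finset.sum_const, Finset.card_range, nsmul_eq_mul]
        have e2 : (j:ℝ) * (3 / c ^ 2 * (1 + Real.log N) + 1) =
            ∑ _c ∈ Finset.range j, (3 / c ^ 2 * (1 + Real.log N) + 1) := by
          rw [Finset.sum_const, Finset.card_range, nsmul_eq_mul]
        rw [e, e2, ← Finset.sum_sub_distrib]
        refine (Finset.abs_sum_le_sum_abs _ _).trans ?_
        apply Finset.sum_le_sum
        intro i hi
        rw [Finset.mem_range] at hi
        have h1 := one (p * β) (fun q hq => by simpa using hβ' 0 q hq) (Nc p N i) (i * β + θ)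
          (hNcle i (by omega))
        have h2 := Nc_near p N i hp (by omega)
        have e3 : (cnt (p * β) (i * β + θ) a (Nc p N i) : ℝ) - a * (N / p) =
            ((cnt (p * β) (i * β + θ) a (Nc p N i) : ℝ) - a * (Nc p N i)) +
            a * ((Nc p N i : ℝ) - N / p) := by ring
        rw [e3]
        refine (abs_add_le _ _).trans (add_le_add h1 ?_)
        rw [abs_mul, abs_of_nonneg ha0]
        calc a * |(Nc p N i : ℝ) - N / p| ≤ 1 * 1 := by gcongr
          _ = 1 := one_mul 1
      have hlast : |a * (p * b - j) * N' - a * (p * b - j) * (N / p)| ≤ 1 := by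
        have h2 := Nc_near p N j hp hjp
        rw [← hN'] at h2
        rw [← mul_sub, abs_mul, abs_mul, abs_of_nonneg ha0,
          abs_of_nonneg (by linarith : 0 ≤ p * b - j)]
        calc a * (p * b - j) * |(N':ℝ) - N / p| ≤ 1 * 1 * 1 := by
              gcongr
              linarith
          _ = 1 := by norm_num
      have hmain : |(cnt2 p β θ a b N : ℝ) - a * b * N| ≤
          j * (3 / c ^ 2 * (1 + Real.log N) + 1) +
          (|(cnt2 p (p * β) (j * β + θ) a (p * b - j) N' : ℝ) - a * (p * b - j) * N'| + 1) := by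
        have e : (cnt2 p β θ a b N : ℝ) - a * b * N =
            (∑ c ∈ Finset.range j, (cnt (p * β) (c * β + θ) a (Nc p N c) : ℝ) -
              j * (a * (N / p))) +
            (((cnt2 p (p * β) (j * β + θ) a (p * b - j) N' : ℝ) - a * (p * b - j) * N') +
            (a * (p * b - j) * N' - a * (p * b - j) * (N / p))) := by
          rw [hrec]
          field_simp
          ring
        rw [e]
        refine (abs_add_le _ _).trans (add_le_add hsum ?_)
        refine (abs_add_le _ _).trans ?_
        linarith
      -- the bound for the recursive term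
      have hTN : |(cnt2 p (p * β) (j * β + θ) a (p * b - j) N' : ℝ) - a * (p * b - j) * N'| ≤
          A * (1 + Real.log N) * (4 * Real.log N) := by
        rcases Nat.eq_zero_or_pos N' with h | h
        · rw [h]
          simp only [cnt2, Finset.range_zero, Finset.filter_empty, Finset.card_empty,
            Nat.cast_zero, mul_zero, sub_zero, abs_zero]
          positivity
        · refine hT.trans ?_
          have hN'r : (0:ℝ) < N' := by exact_mod_cast h
          have h43 : (N':ℝ) ≤ 3 / 4 * N := by
            have : (4:ℝ) * N' ≤ 3 * N := by exact_mod_cast hN'le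
            linarith
          have hlog : Real.log N' ≤ Real.log N - 1 / 4 := by
            calc Real.log N' ≤ Real.log (3 / 4 * N) := Real.log_le_log hN'r h43
              _ = Real.log (3 / 4) + Real.log N := Real.log_mul (by norm_num) (by linarith)
              _ ≤ Real.log N - 1 / 4 := by
                have := Real.log_le_sub_one_of_pos (by norm_num : (0:ℝ) < 3 / 4)
                linarith
          have hlog0 : 0 ≤ Real.log N' := Real.log_natCast_nonneg N'
          apply mul_le_mul
          · apply mul_le_mul_of_nonneg_left _ hApos.le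
            linarith
          · linarith
          · linarith
          · positivity
      have hjle : (j:ℝ) ≤ p := by exact_mod_cast hjp.le
      calc |(cnt2 p β θ a b N : ℝ) - a * b * N|
          ≤ j * (3 / c ^ 2 * (1 + Real.log N) + 1) +
          (A * (1 + Real.log N) * (4 * Real.log N) + 1) := by linarith
        _ ≤ p * (3 / c ^ 2 * (1 + Real.log N) + 1) +
          (A * (1 + Real.log N) * (4 * Real.log N) + 1) := by gcongr
        _ ≤ A * (1 + Real.log N) + A * (1 + Real.log N) * (4 * Real.log N) := by
          have h5 : p * (3 / c ^ 2 * (1 + Real.log N) + 1) + 1 ≤ A * (1 + Real.log N) := by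
            rw [hA]
            have e : p * (3 / c ^ 2 * (1 + Real.log N) + 1) =
              3 * p / c ^ 2 * (1 + Real.log N) + p := by ring
            rw [e]
            nlinarith
          linarith
        _ = A * (1 + Real.log N) * (1 + 4 * Real.log N) := by ring

end Q271.KV
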